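import Pool.Agent.H23.NVK.MTargets
import Pool.Agent.H39.CN.QUA
import Pool.Agent.H3.CN.MOM

/-!
# The polynomial functional on a square (row M_QUR)
-/

set_option autoImplicit false

open MeasureTheory Set Filter
open scoped Real

namespace Pool.Agent.H36.NVK

open Pool.Agent.H31.CN (GR E lin mo al et Mf Fi Mt PP c0 lin_ext lin_E)
open Pool.Agent.H23.NVK

lemma lin_mul_left (r : ℝ) (f g : ℝ × ℝ → ℝ) (h : ∀ v, g v = r * f v) (x : GR) :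
    lin g x = r * lin f x := by
  have h1 := lin_ext (r • lin f) g (fun x y => by
    rw [LinearMap.smul_apply, lin_E, h, smul_eq_mul]) x
  rw [← h1, LinearMap.smul_apply, smul_eq_mul]

lemma PPr_eq (ρ c a₁ a₀ b₂ b₁ b₀ u v : ℝ) (hρ : ρ ≠ 0) :
    PPr ρ c a₁ a₀ b₂ b₁ b₀ u v = ρ ^ 2 * PP (a₁ / ρ ^ 2) (a₀ / ρ ^ 2)
      (b₂ / ρ ^ 2 - (c - c0) / 4) (b₁ / ρ ^ 2 - (c - c0) * (a₁ / ρ ^ 2))
      (b₀ / ρ ^ 2 - (c - c0) * (a₀ / ρ ^ 2)) u v := by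
  unfold PPr PP
  field_simp
  ring

theorem pf_QUR : T_QUR := by
  intro ρ c a₁ a₀ b₂ b₁ b₀ κ K hρ hK
  obtain ⟨C, hC, h⟩ := Pool.Agent.H39.CN.pf_QUA Pool.Agent.H3.CN.pf_MOM (a₁ / ρ ^ 2) (a₀ / ρ ^ 2)
    (b₂ / ρ ^ 2 - (c - c0) / 4) (b₁ / ρ ^ 2 - (c - c0) * (a₁ / ρ ^ 2))
    (b₀ / ρ ^ 2 - (c - c0) * (a₀ / ρ ^ 2)) κ K hK
  refine ⟨ρ ^ 2 * C, by positivity, ?_⟩
  intro N₀ Et B l lam g d H Eb s p₀ p₁ p₂ hl hlam hd hEb hs hH hp0 hp1 hp2 hNE hg hB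
  have h1 := h N₀ Et B l lam g d H Eb s p₀ p₁ p₂ hl hlam hd hEb hs hH hp0 hp1 hp2 hNE hg hB
  rw [lin_mul_left (ρ ^ 2) _ _ (fun v => PPr_eq ρ c a₁ a₀ b₂ b₁ b₀ (lam - v.1) (lam - v.2)
    hρ.ne'), ← mul_sub, abs_mul, abs_of_pos (by positivity : 0 < ρ ^ 2)]
  calc ρ ^ 2 * _ ≤ ρ ^ 2 * (C * Eb ^ 2 / d * l ^ (-2 : ℤ)) :=
        mul_le_mul_of_nonneg_left h1 (by positivity)
    _ = ρ ^ 2 * C * Eb ^ 2 / d * l ^ (-2 : ℤ) := by ring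

end Pool.Agent.H36.NVK
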