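import Pool.Agent.H91.NV.LTargets

/-!
# NVK, part L: row ANF, the factors at the small primes depend on the discriminant only
-/

namespace Pool.Agent.H36.NVK

open MeasureTheory Set Filter NumberField NumberField.InfinitePlace
open Pool.Agent.H65.CM4 Pool.Agent.H61.NVK Pool.Agent.H89.NV Pool.Agent.H91.NV
open scoped Real

variable (k : Type) [Field k] [NumberField k] [IsTotallyReal k]

set_option linter.unusedSectionVars false in
theorem pf_ANF (hCHD : T_CHD k) (hTRV : T_TRV k) : T_ANF k := by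
  have aux : ∀ (f : Ideal (𝓞 k)) (D b : 𝓞 k), f ≠ ⊥ → b ∈ f → b ^ 2 + D ∈ ni k 4 * f ^ 2 →
      4 * q4 (b ^ 2 + D) = b ^ 2 + D ∧ 4 * q4 (b ^ 2 + D) - b ^ 2 = D ∧
        q4 (b ^ 2 + D) ∈ f ^ 2 := by
    intro f D b hf hb hD
    have hF : Fm f D ⊤ b := ⟨top_ne_bot, hb, by rw [Ideal.top_mul]; exact hD⟩
    have h := hTRV f ⊤ D b hf hF
    obtain ⟨h1, h2, -⟩ := h
    rw [Ideal.top_mul] at h2
    exact ⟨h1, by rw [h1]; ring, h2⟩
  intro f D b b' hf hb hb' hD hD'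
  obtain ⟨h1, h2, h3⟩ := aux f D b hf hb hD
  obtain ⟨h1', h2', h3'⟩ := aux f D b' hf hb' hD'
  refine ⟨?_, h1, h2, h3⟩
  intro R n
  have hc := hCHD f b b' (q4 (b ^ 2 + D)) (q4 (b' ^ 2 + D)) hf hb hb' h3 h3' (by rw [h2, h2'])
  unfold an
  refine Finset.prod_congr rfl ?_
  intro P _
  rw [hc P]

end Pool.Agent.H36.NVK
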